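import Mathlib

set_option autoImplicit false

namespace Pool.Agent.H.MP_ca57f4_an

open Classical in
noncomputable def phi (N : ℤ) : ℂ :=
  if h : ∃ n : ℕ, N = 2 ^ n then (-1 / 2 : ℂ) ^ (Classical.choose h) else 0

lemma phi_pow (n : ℕ) : phi (2 ^ n) = (-1 / 2 : ℂ) ^ n := by
  have h : ∃ m : ℕ, (2 : ℤ) ^ n = 2 ^ m := ⟨n, rfl⟩
  unfold phi
  rw [dif_pos h]
  have h2 := Classical.choose_spec h
  have : n = Classical.choose h := by
    have h3 : ((2 : ℕ) ^ n : ℕ) = 2 ^ Classical.choose h := by exact_mod_cast h2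
    exact Nat.pow_right_injective (le_refl 2) h3
  rw [← this]

lemma phi_zero {N : ℤ} (h : ¬ ∃ n : ℕ, N = 2 ^ n) : phi N = 0 := by
  unfold phi
  rw [dif_neg h]

lemma phi_two_mul (N : ℤ) : phi (2 * N) = (-1 / 2 : ℂ) * phi N := by
  by_cases h : ∃ n : ℕ, N = 2 ^ n
  · obtain ⟨n, rfl⟩ := h
    rw [← pow_succ', phi_pow, phi_pow, pow_succ']
  · rw [phi_zero h, mul_zero]
    apply phi_zero
    rintro ⟨n, hn⟩
    cases n with
    | zero => omega
    | succ m =>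
      apply h
      refine ⟨m, ?_⟩
      rw [pow_succ'] at hn
      omega

lemma phi_norm {N : ℤ} (hN : 0 < N) : ‖phi N‖ ≤ 1 / (N : ℝ) := by
  by_cases h : ∃ n : ℕ, N = 2 ^ n
  · obtain ⟨n, rfl⟩ := h
    rw [phi_pow, norm_pow]
    have : ‖(-1 / 2 : ℂ)‖ = 1 / 2 := by simp
    rw [this]
    push_cast
    rw [one_div_pow]
  · rw [phi_zero h, norm_zero]
    have : (0 : ℝ) < N := by exact_mod_cast hN
    positivity

lemma phi_at_zero : phi 0 = 0 := by
  apply phi_zero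
  rintro ⟨n, hn⟩
  have : (0 : ℤ) < 2 ^ n := by positivity
  omega

lemma rot (n : ℕ) : ∀ a b c d : ℤ, a ^ 2 + b ^ 2 = 2 ^ n → c ^ 2 + d ^ 2 = 2 ^ n →
    (c = a ∧ d = b) ∨ (c = -a ∧ d = -b) ∨ (c = -b ∧ d = a) ∨ (c = b ∧ d = -a) := by
  induction n with
  | zero =>
    intro a b c d h1 h2
    have ha : a ≤ 1 := by nlinarith [sq_nonneg b]
    have ha' : -1 ≤ a := by nlinarith [sq_nonneg b]
    have hb : b ≤ 1 := by nlinarith [sq_nonneg a]
    have hb' : -1 ≤ b := by nlinarith [sq_nonneg a]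
    have hc : c ≤ 1 := by nlinarith [sq_nonneg d]
    have hc' : -1 ≤ c := by nlinarith [sq_nonneg d]
    have hd : d ≤ 1 := by nlinarith [sq_nonneg c]
    have hd' : -1 ≤ d := by nlinarith [sq_nonneg c]
    interval_cases a <;> interval_cases b <;> interval_cases c <;> interval_cases d <;> simp_all
  | succ m ih =>
    intro a b c d h1 h2
    have key : ∀ x y : ℤ, x ^ 2 + y ^ 2 = 2 ^ (m + 1) → ∃ p q : ℤ, x = p - q ∧ y = p + q ∧
        p ^ 2 + q ^ 2 = 2 ^ m := by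
      intro x y h
      have he : Even (x + y) := by
        have h2 : Even (x ^ 2 + y ^ 2) := by
          rw [h, pow_succ]; exact even_two.mul_left _
        simp only [Int.even_add, Int.even_pow] at h2 ⊢
        simpa using h2
      obtain ⟨p, hp⟩ := he
      refine ⟨p, y - p, by omega, by omega, ?_⟩
      have hx : x = p - (y - p) := by omega
      have : 2 * (p ^ 2 + (y - p) ^ 2) = 2 ^ m * 2 := by
        rw [← pow_succ, ← h, hx]; ring
      omega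
    obtain ⟨p, q, rfl, rfl, hpq⟩ := key a b h1
    obtain ⟨r, s, rfl, rfl, hrs⟩ := key c d h2
    rcases ih p q r s hpq hrs with ⟨h3, h4⟩ | ⟨h3, h4⟩ | ⟨h3, h4⟩ | ⟨h3, h4⟩ <;> omega

noncomputable def f0 (y : ℤ × ℤ) : ℂ := phi (y.1 ^ 2 + y.2 ^ 2)

lemma support_line (z y : ℤ × ℤ) (hz : z ≠ 0) (h : y.1 * z.1 + y.2 * z.2 = z.1 ^ 2 + z.2 ^ 2)
    (hf : f0 y ≠ 0) : y = z ∨ y = (z.1 - z.2, z.2 + z.1) ∨ y = (z.1 + z.2, z.2 - z.1) := by
  have hp : ∃ n : ℕ, y.1 ^ 2 + y.2 ^ 2 = 2 ^ n := by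
    by_contra hc
    exact hf (phi_zero hc)
  obtain ⟨n, hn⟩ := hp
  have h2 : (2 * z.1 - y.1) ^ 2 + (2 * z.2 - y.2) ^ 2 = 2 ^ n := by
    rw [← hn]; linear_combination (-4 : ℤ) * h
  obtain ⟨y1, y2⟩ := y
  obtain ⟨z1, z2⟩ := z
  simp only [ne_eq, Prod.mk_eq_zero, Prod.mk.injEq] at *
  rcases rot n _ _ _ _ hn h2 with ⟨h3, h4⟩ | ⟨h3, h4⟩ | ⟨h3, h4⟩ | ⟨h3, h4⟩ <;> omega

lemma hasSum_line (z : ℤ × ℤ) (hz : z ≠ 0) :
    HasSum (fun y : {y : ℤ × ℤ // y.1 * z.1 + y.2 * z.2 = z.1 ^ 2 + z.2 ^ 2} => f0 y) 0 := by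
  classical
  let a : {y : ℤ × ℤ // y.1 * z.1 + y.2 * z.2 = z.1 ^ 2 + z.2 ^ 2} := ⟨z, by ring⟩
  let b : {y : ℤ × ℤ // y.1 * z.1 + y.2 * z.2 = z.1 ^ 2 + z.2 ^ 2} :=
    ⟨(z.1 - z.2, z.2 + z.1), by ring⟩
  let c : {y : ℤ × ℤ // y.1 * z.1 + y.2 * z.2 = z.1 ^ 2 + z.2 ^ 2} :=
    ⟨(z.1 + z.2, z.2 - z.1), by ring⟩
  have hz' : ¬ (z.1 = 0 ∧ z.2 = 0) := by
    rintro ⟨h1, h2⟩; exact hz (Prod.ext h1 h2)
  have hab : a ≠ b := by
    intro h
    have h1 := congrArg (fun t => t.1.1) h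
    have h2 := congrArg (fun t => t.1.2) h
    simp only [a, b] at h1 h2
    omega
  have hac : a ≠ c := by
    intro h
    have h1 := congrArg (fun t => t.1.1) h
    have h2 := congrArg (fun t => t.1.2) h
    simp only [a, c] at h1 h2
    omega
  have hbc : b ≠ c := by
    intro h
    have h1 := congrArg (fun t => t.1.1) h
    have h2 := congrArg (fun t => t.1.2) h
    simp only [b, c] at h1 h2
    omega
  have hs : HasSum (fun y : {y : ℤ × ℤ // y.1 * z.1 + y.2 * z.2 = z.1 ^ 2 + z.2 ^ 2} => f0 y)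
      (∑ y ∈ ({a, b, c} : Finset _), f0 y.1) := by
    apply hasSum_sum_of_ne_finset_zero
    intro y hy
    by_contra hf
    apply hy
    rcases support_line z y.1 hz y.2 hf with h | h | h
    · have : y = a := Subtype.ext h
      simp [this]
    · have : y = b := Subtype.ext h
      simp [this]
    · have : y = c := Subtype.ext h
      simp [this]
  have hv : (∑ y ∈ ({a, b, c} : Finset _), f0 y.1) = 0 := by
    rw [Finset.sum_insert (by simp [hab, hac]), Finset.sum_pair hbc]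
    have e1 : f0 b.1 = (-1 / 2 : ℂ) * f0 a.1 := by
      unfold f0
      rw [← phi_two_mul]
      congr 1
      simp only [a, b]; ring
    have e2 : f0 c.1 = (-1 / 2 : ℂ) * f0 a.1 := by
      unfold f0
      rw [← phi_two_mul]
      congr 1
      simp only [a, c]; ring
    rw [e1, e2]; ring
  rw [hv] at hs
  exact hs

def onLine (w z y : ℤ × ℤ) : Prop :=
  if z = 0 then
    ∃ t : ℝ, (y.1 : ℝ) = t * (w.1 / √(w.1 ^ 2 + w.2 ^ 2)) ∧
      (y.2 : ℝ) = t * (w.2 / √(w.1 ^ 2 + w.2 ^ 2))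
  else
    ∃ t : ℝ, (y.1 : ℝ) = z.1 + t * (-z.2 / √(z.1 ^ 2 + z.2 ^ 2)) ∧
      (y.2 : ℝ) = z.2 + t * (z.1 / √(z.1 ^ 2 + z.2 ^ 2))

lemma pos_of_ne {z : ℤ × ℤ} (hz : z ≠ 0) : 0 < z.1 ^ 2 + z.2 ^ 2 := by
  have hz' : ¬ (z.1 = 0 ∧ z.2 = 0) := by
    rintro ⟨h1, h2⟩; exact hz (Prod.ext h1 h2)
  by_cases h : z.1 = 0
  · have : z.2 ≠ 0 := fun h2 => hz' ⟨h, h2⟩
    positivity
  · positivity

lemma posR_of_ne {z : ℤ × ℤ} (hz : z ≠ 0) : (0 : ℝ) < (z.1 : ℝ) ^ 2 + (z.2 : ℝ) ^ 2 := by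
  exact_mod_cast pos_of_ne hz

lemma onLine_iff (w z y : ℤ × ℤ) (hz : z ≠ 0) :
    onLine w z y ↔ y.1 * z.1 + y.2 * z.2 = z.1 ^ 2 + z.2 ^ 2 := by
  unfold onLine
  rw [if_neg hz]
  have hp := posR_of_ne hz
  set s := √((z.1 : ℝ) ^ 2 + (z.2 : ℝ) ^ 2) with hs
  have hs0 : 0 < s := Real.sqrt_pos.2 hp
  have hs2 : s ^ 2 = (z.1 : ℝ) ^ 2 + (z.2 : ℝ) ^ 2 := Real.sq_sqrt hp.le
  constructor
  · rintro ⟨t, h1, h2⟩
    have : (y.1 : ℝ) * z.1 + y.2 * z.2 = (z.1 : ℝ) ^ 2 + (z.2 : ℝ) ^ 2 := by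
      rw [h1, h2]; ring
    exact_mod_cast this
  · intro h
    have h' : (y.1 : ℝ) * z.1 + y.2 * z.2 = (z.1 : ℝ) ^ 2 + (z.2 : ℝ) ^ 2 := by exact_mod_cast h
    refine ⟨((y.2 : ℝ) * z.1 - y.1 * z.2) / s, ?_, ?_⟩
    · field_simp
      rw [hs2]
      linear_combination (z.1 : ℝ) * h'
    · field_simp
      rw [hs2]
      linear_combination (z.2 : ℝ) * h'

lemma f0_norm {y : ℤ × ℤ} (hy : y ≠ 0) : ‖f0 y‖ ≤ 1 / ((y.1 : ℝ) ^ 2 + (y.2 : ℝ) ^ 2) := by
  have := phi_norm (pos_of_ne hy)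
  push_cast at this
  exact this

lemma f0_zero : f0 0 = 0 := by
  unfold f0
  simpa using phi_at_zero

lemma summable_zero (w : ℤ × ℤ) (hw : w ≠ 0) :
    Summable (fun y : {y : ℤ × ℤ // onLine w 0 y} => f0 y) := by
  have hp := posR_of_ne hw
  set s := √((w.1 : ℝ) ^ 2 + (w.2 : ℝ) ^ 2) with hs
  have hs0 : 0 < s := Real.sqrt_pos.2 hp
  have hs2 : s ^ 2 = (w.1 : ℝ) ^ 2 + (w.2 : ℝ) ^ 2 := Real.sq_sqrt hp.le
  have key : ∀ y : {y : ℤ × ℤ // onLine w 0 y}, ∃ t : ℝ, (y.1.1 : ℝ) = t * (w.1 / s) ∧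
      (y.1.2 : ℝ) = t * (w.2 / s) ∧ ((y.1.1 * w.1 + y.1.2 * w.2 : ℤ) : ℝ) = t * s := by
    rintro ⟨y, hy⟩
    unfold onLine at hy
    rw [if_pos rfl, ← hs] at hy
    obtain ⟨t, h1, h2⟩ := hy
    refine ⟨t, h1, h2, ?_⟩
    push_cast
    rw [h1, h2]
    field_simp
    rw [hs2]
  have hinj : Function.Injective
      (fun y : {y : ℤ × ℤ // onLine w 0 y} => y.1.1 * w.1 + y.1.2 * w.2) := by
    intro y y' h
    obtain ⟨t, h1, h2, h3⟩ := key y
    obtain ⟨t', h1', h2', h3'⟩ := key y'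
    simp only at h
    rw [h, h3'] at h3
    have htt : t' = t := mul_right_cancel₀ hs0.ne' h3
    rw [htt] at h1' h2'
    apply Subtype.ext
    apply Prod.ext
    · exact_mod_cast h1.trans h1'.symm
    · exact_mod_cast h2.trans h2'.symm
  have hsum : Summable (fun n : ℤ => s ^ 2 * (1 / (n : ℝ) ^ 2)) :=
    (Real.summable_one_div_int_pow.2 (by norm_num)).mul_left _
  refine Summable.of_norm_bounded (hsum.comp_injective hinj) ?_
  intro y
  by_cases hy : y.1 = 0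
  · rw [hy, f0_zero, norm_zero]
    simp only [Function.comp]
    positivity
  · refine (f0_norm hy).trans (le_of_eq ?_)
    obtain ⟨t, h1, h2, h3⟩ := key y
    have hq := posR_of_ne hy
    have ht : (y.1.1 : ℝ) ^ 2 + (y.1.2 : ℝ) ^ 2 = t ^ 2 := by
      rw [h1, h2]
      field_simp
      rw [hs2]
    simp only [Function.comp]
    rw [h3, ht]
    rw [ht] at hq
    have ht0 : t ≠ 0 := by
      rintro rfl
      simp at hq
    field_simp

theorem main (w : ℤ × ℤ) (hw : w ≠ 0) : ∃ f : ℤ × ℤ → ℂ, f ≠ 0 ∧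
    (∃ ε : ℝ, 0 < ε ∧ ∃ C : ℝ, ∀ x : ℤ × ℤ, x ≠ 0 →
      ‖f x‖ ≤ C * √((x.1 : ℝ) ^ 2 + (x.2 : ℝ) ^ 2) ^ (-(1 + ε))) ∧
    ∀ z : ℤ × ℤ, HasSum (fun y : {y : ℤ × ℤ // onLine w z y} => f y) 0 := by
  classical
  obtain ⟨s, hs⟩ := summable_zero w hw
  refine ⟨fun y => f0 y + if y = 0 then -s else 0, ?_, ⟨1, one_pos, 1, ?_⟩, ?_⟩
  · intro h
    have h1 := congrFun h (1, 0)
    have h2 : f0 (1, 0) = 1 := by
      unfold f0
      have := phi_pow 0
      simpa using this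
    simp [h2] at h1
  · intro x hx
    simp only [if_neg hx, add_zero, one_mul]
    refine (f0_norm hx).trans (le_of_eq ?_)
    have hp := posR_of_ne hx
    have : (-(1 + 1) : ℝ) = -((2 : ℕ) : ℝ) := by norm_num
    rw [this, Real.rpow_neg (Real.sqrt_nonneg _), Real.rpow_natCast, Real.sq_sqrt hp.le, one_div]
  · intro z
    by_cases hz : z = 0
    · subst hz
      have h0 : onLine w 0 0 := by
        unfold onLine
        rw [if_pos rfl]
        exact ⟨0, by simp, by simp⟩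
      have h2 : HasSum (fun y : {y : ℤ × ℤ // onLine w 0 y} => if y.1 = 0 then -s else 0) (-s) := by
        have := hasSum_ite_eq (⟨0, h0⟩ : {y : ℤ × ℤ // onLine w 0 y}) (-s)
        have e : (fun y : {y : ℤ × ℤ // onLine w 0 y} => if y.1 = 0 then -s else 0) =
            fun y : {y : ℤ × ℤ // onLine w 0 y} => if y = ⟨0, h0⟩ then -s else 0 := by
          funext y
          simp only [Subtype.ext_iff]
        rw [e]
        exact this
      have := hs.add h2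
      rw [add_neg_cancel] at this
      exact this
    · have e : (fun y => onLine w z y) =
          fun y : ℤ × ℤ => y.1 * z.1 + y.2 * z.2 = z.1 ^ 2 + z.2 ^ 2 := by
        funext y
        exact propext (onLine_iff w z y hz)
      have h1 := hasSum_line z hz
      have h3 : HasSum (fun y : {y : ℤ × ℤ // onLine w z y} => f0 y) 0 := by
        have := (Equiv.subtypeEquivRight (fun y => onLine_iff w z y hz)).hasSum_iff.2 h1
        exact this
      have h4 : (fun y : {y : ℤ × ℤ // onLine w z y} => f0 y + if y.1 = 0 then -s else 0) =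
          fun y : {y : ℤ × ℤ // onLine w z y} => f0 y := by
        funext y
        have hy : y.1 ≠ 0 := by
          intro h
          have h5 := (onLine_iff w z y hz).1 y.2
          rw [h] at h5
          have := pos_of_ne hz
          simp at h5
          omega
        simp [hy]
      rw [h4]
      exact h3

end Pool.Agent.H.MP_ca57f4_an
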